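import Mathlib
import Pool.Agent.Lib.MP_91a61a_gt.Defs
import Pool.Agent.Lib.MP_91a61a_gt.Proof

set_option autoImplicit false

/-!
# The links `L_{i,j,n}` are Brunnian

Outline. Write `ℝ^n = ℝ^a × ℝ^b × ℝ^c` with `a = i`, `b = n - i - j - 1`, `c = j + 1` and points
`(x, y, z)`. Two-component sublinks: each component bounds a flat ellipsoidal ball or a half
ellipsoid that misses any prescribed other component (`pairs`).

Not an unlink: suppose `K₁` bounds a ball `B` missing `K₂` and `K₃`. By the Tietze theorem the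
inclusion of `K₁` extends to a map of the disk of radius `2` of `ℝ^a × ℝ^b` into `B`; extended by the
inclusion outside the disk it gives `F = (u, v, w) : ℝ^a × ℝ^b → ℝ^n`. The zero set of `u` splits
into the disjoint closed sets `P₁` (where `|v|² + |w|² < 9` or outside the disk) and `P₂` (compact),
that of `v` into `Q₁` (compact, where `|u|² + |w|²/16 < 1`) and `Q₂`, and `P₁ ∩ Q₂` is empty.
The map `(p, q) ↦ (u p, v q, p - q - s τ(p, q))`, with `τ(p, q)` a unit vector of `ℝ^b` for `p ∈ P₂`,
a unit vector of `ℝ^a` for `p ∈ P₁, q ∈ Q₁`, and `0` for `p ∈ P₁, q ∈ Q₂`, with suitable cut-offs, is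
nowhere zero and agrees with a linear automorphism outside a ball, which contradicts Brouwer's
theorem (`core`, `exists_zero_of_eq_linear`).
-/

namespace Pool.Agent.Results.MP_91a61a_gt.Brunnian

open Pool.Agent.Lib.MP_91a61a_gt

/-- For all `n, i, j` with `i ≥ 1` and `i + j ≤ n - 2` the link `L_{i,j,n}` is Brunnian. -/
theorem result (n i j : ℕ) (hi : 1 ≤ i) (hij : i + j + 2 ≤ n) : IsBrunnian (L i j n) :=
  ⟨isLink i j hi hij, by simp, not_unlink i j hi hij,
    unlink_of_pairs _ (pairs i j hi hij)⟩

end Pool.Agent.Results.MP_91a61a_gt.Brunnian
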